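import Mathlib

set_option autoImplicit false

/-! Lower bounds for the measure of the set of large values from a limit law under a tilted measure. -/

namespace Pool.Agent.V1178.LV

open Filter MeasureTheory Topology Set ProbabilityTheory

/-- a tent -/
noncomputable def tent (r : ℝ) : BoundedContinuousFunction ℝ ℝ :=
  BoundedContinuousFunction.ofNormedAddCommGroup (fun x => max 0 (1 - |x / r - 2|)) (by fun_prop) 1
    (fun x => by
      rw [Real.norm_eq_abs, abs_of_nonneg (le_max_left _ _)]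
      refine max_le zero_le_one ?_
      have := abs_nonneg (x / r - 2)
      linarith)

lemma tent_apply (r x : ℝ) : tent r x = max 0 (1 - |x / r - 2|) := rfl

lemma tent_nonneg (r x : ℝ) : 0 ≤ tent r x := le_max_left _ _

lemma tent_le (r x : ℝ) : tent r x ≤ 1 := by
  rw [tent_apply]
  refine max_le zero_le_one ?_
  have := abs_nonneg (x / r - 2)
  linarith

lemma tent_supp {r x : ℝ} (hr : 0 < r) (h : tent r x ≠ 0) : r ≤ x ∧ x ≤ 3 * r := by
  rw [tent_apply] at h
  have h1 : 0 < 1 - |x / r - 2| := by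
    by_contra hc
    push Not at hc
    exact h (max_eq_left hc)
  have h2 := abs_lt.1 (show |x / r - 2| < 1 by linarith)
  constructor
  · have : 1 < x / r := by linarith
    rw [lt_div_iff₀ hr] at this
    linarith
  · have : x / r < 3 := by linarith
    rw [div_lt_iff₀ hr] at this
    linarith

lemma tent_pos {r : ℝ} (hr : 0 < r) : 0 < ∫ x, tent r x ∂(gaussianReal 0 1) := by
  rw [integral_pos_iff_support_of_nonneg (fun x => tent_nonneg r x)
    ((tent r).integrable (gaussianReal 0 1))]
  have h1 : Ioo r (3 * r) ⊆ Function.support (fun x => tent r x) := by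
    intro x hx
    rw [Function.mem_support, tent_apply]
    have h2 : |x / r - 2| < 1 := by
      rw [abs_lt]
      constructor
      · have : 1 < x / r := by rw [lt_div_iff₀ hr]; linarith [hx.1]
        linarith
      · have : x / r < 3 := by rw [div_lt_iff₀ hr]; linarith [hx.2]
        linarith
    have h3 : 0 < 1 - |x / r - 2| := by linarith
    exact (lt_of_lt_of_le h3 (le_max_right _ _)).ne'
  have h2 : (gaussianReal 0 1) (Ioo r (3 * r)) ≠ 0 := by
    intro h0
    have h3 := gaussianReal_absolutelyContinuous' (0:ℝ) (v := 1) one_ne_zero h0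
    rw [Real.volume_Ioo, ENNReal.ofReal_eq_zero] at h3
    linarith
  exact lt_of_lt_of_le (pos_iff_ne_zero.2 h2) (measure_mono h1)

/-- **Lower bound.** `Z` is the size, `L` the logarithm of the inverse distance, `D T` the domain, `B T` a
set of small tilted mass. -/
lemma lower {κ a : ℝ} (hκ : 0 < κ) (ha : 0 < a) {L : ℝ → ℝ} (hL : Tendsto L atTop atTop)
    {Z : ℝ → ℝ → ℝ} (hZ0 : ∀ T t, 0 ≤ Z T t) (hZm : ∀ T, Measurable (Z T))
    {D : ℝ → Set ℝ} (hD : ∀ T, MeasurableSet (D T)) (hDs : ∀ T, D T ⊆ Icc 0 T)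
    (hint : ∀ᶠ T in atTop, IntegrableOn (fun t => Z T t ^ (2 * κ)) (D T))
    (hlim : ∀ F : BoundedContinuousFunction ℝ ℝ, Tendsto (fun T => Real.exp (-(κ ^ 2 * L T)) / T *
      ∫ t in D T, Z T t ^ (2 * κ) * F ((Real.log (Z T t) - κ * L T) / Real.sqrt (L T / 2))) atTop
      (𝓝 (a * ∫ x, F x ∂(gaussianReal 0 1))))
    {ε : ℝ} (hε : 0 < ε) :
    ∃ η : ℝ, 0 < η ∧ ∀ (M : ℝ) (B : ℝ → Set ℝ), (∀ T, MeasurableSet (B T)) →
      (∀ᶠ T in atTop, Real.exp (-(κ ^ 2 * L T)) / T * ∫ t in D T ∩ B T, Z T t ^ (2 * κ) ≤ η) →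
      ∀ᶠ T in atTop, Real.exp (-(κ ^ 2 * L T) - ε * Real.sqrt (L T)) ≤
        (volume {t | t ∈ D T ∧ t ∉ B T ∧ κ * L T + M < Real.log (Z T t)}).toReal / T := by
  obtain ⟨r, hr⟩ : ∃ r : ℝ, r = ε / (24 * κ) := ⟨_, rfl⟩
  have hr0 : 0 < r := by rw [hr]; positivity
  obtain ⟨p, hp⟩ : ∃ p, p = ∫ x, tent r x ∂(gaussianReal 0 1) := ⟨_, rfl⟩
  have hp0 : 0 < p := by rw [hp]; exact tent_pos hr0
  refine ⟨a * p / 4, by positivity, fun M B hB hBm => ?_⟩
  have h1 := hlim (tent r)
  rw [← hp] at h1
  have h2 : ∀ᶠ T in atTop, a * p / 2 ≤ Real.exp (-(κ ^ 2 * L T)) / T *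
      ∫ t in D T, Z T t ^ (2 * κ) * tent r ((Real.log (Z T t) - κ * L T) / Real.sqrt (L T / 2)) :=
    h1.eventually (eventually_ge_nhds (show a * p / 2 < a * p by nlinarith [mul_pos ha hp0]))
  have hsq : Tendsto (fun T => Real.sqrt (L T)) atTop atTop := Real.tendsto_sqrt_atTop.comp hL
  have hsq2 : Tendsto (fun T => Real.sqrt (L T / 2)) atTop atTop :=
    Real.tendsto_sqrt_atTop.comp (hL.atTop_div_const (by norm_num))
  filter_upwards [h2, hBm, hint, eventually_gt_atTop (0:ℝ), hL.eventually (eventually_ge_atTop 1),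
    hsq2.eventually (eventually_ge_atTop ((|M| + 1) / r)),
    hsq.eventually (eventually_ge_atTop (2 / ε * Real.log (4 / (a * p))))] with T h2 h3 hI hT hL1 h4 h5
  obtain ⟨l, hl⟩ : ∃ l, l = L T := ⟨_, rfl⟩
  rw [← hl] at h2 h3 hL1 h4 h5 ⊢
  have hl0 : 0 < l := by linarith
  set q := Real.sqrt (l / 2) with hq
  have hq0 : 0 < q := by rw [hq]; positivity
  have hqs : q ≤ Real.sqrt l := by
    rw [hq]; exact Real.sqrt_le_sqrt (by linarith)
  have hMq : |M| + 1 ≤ r * q := by
    rw [div_le_iff₀ hr0] at h4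
    linarith
  set G : Set ℝ := {t | t ∈ D T ∧ t ∉ B T ∧ κ * l + M < Real.log (Z T t)} with hG
  have hGm : MeasurableSet G := by
    refine (hD T).inter ((hB T).compl.inter ?_)
    exact measurableSet_lt measurable_const ((hZm T).log)
  have hGf : volume G ≠ ⊤ := by
    refine ne_top_of_le_ne_top ?_ (measure_mono (fun t ht => hDs T ht.1 : G ⊆ Icc 0 T))
    rw [Real.volume_Icc]; exact ENNReal.ofReal_ne_top
  -- the pointwise bound
  have hpt : ∀ t ∈ D T, Z T t ^ (2 * κ) * tent r ((Real.log (Z T t) - κ * l) / q) ≤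
      G.indicator (fun _ => Real.exp (2 * κ * (κ * l + 3 * r * q))) t +
        (B T).indicator (fun t => Z T t ^ (2 * κ)) t := by
    intro t hDt
    have hz : 0 ≤ Z T t ^ (2 * κ) := Real.rpow_nonneg (hZ0 T t) _
    have hind : 0 ≤ G.indicator (fun _ => Real.exp (2 * κ * (κ * l + 3 * r * q))) t :=
      indicator_nonneg (fun _ _ => (Real.exp_pos _).le) _
    have hind2 : 0 ≤ (B T).indicator (fun t => Z T t ^ (2 * κ)) t :=
      indicator_nonneg (fun x _ => Real.rpow_nonneg (hZ0 T x) _) _
    have hle : Z T t ^ (2 * κ) * tent r ((Real.log (Z T t) - κ * l) / q) ≤ Z T t ^ (2 * κ) :=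
      mul_le_of_le_one_right hz (tent_le _ _)
    by_cases hBt : t ∈ B T
    · rw [indicator_of_mem hBt]; linarith
    by_cases ht0 : tent r ((Real.log (Z T t) - κ * l) / q) = 0
    · rw [ht0, mul_zero]; linarith
    obtain ⟨h6, h7⟩ := tent_supp hr0 ht0
    rw [le_div_iff₀ hq0] at h6
    rw [div_le_iff₀ hq0] at h7
    have hlog : κ * l + M < Real.log (Z T t) := by
      have := le_abs_self M
      linarith
    have hGt : t ∈ G := ⟨hDt, hBt, hlog⟩
    rw [indicator_of_mem hGt]
    have hlogpos : 0 < Real.log (Z T t) := by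
      have : 0 < κ * l := by positivity
      have := abs_nonneg M
      linarith
    have hZpos : 0 < Z T t := by
      rcases (hZ0 T t).lt_or_eq with h | h
      · exact h
      · rw [← h, Real.log_zero] at hlogpos
        exact absurd hlogpos (lt_irrefl 0)
    have h8 : Z T t ^ (2 * κ) ≤ Real.exp (2 * κ * (κ * l + 3 * r * q)) := by
      rw [Real.rpow_def_of_pos hZpos, Real.exp_le_exp, mul_comm]
      refine mul_le_mul_of_nonneg_left ?_ (by positivity)
      linarith
    linarith
  -- integrate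
  have hb1 : IntegrableOn (G.indicator fun _ => Real.exp (2 * κ * (κ * l + 3 * r * q))) (D T) := by
    refine (integrableOn_const (by
      refine ne_top_of_le_ne_top ?_ (measure_mono (hDs T))
      rw [Real.volume_Icc]; exact ENNReal.ofReal_ne_top)).indicator hGm
  have hb2 : IntegrableOn ((B T).indicator fun t => Z T t ^ (2 * κ)) (D T) := hI.indicator (hB T)
  have h6 : ∫ t in D T, Z T t ^ (2 * κ) * tent r ((Real.log (Z T t) - κ * l) / q) ≤
      Real.exp (2 * κ * (κ * l + 3 * r * q)) * (volume G).toReal +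
        ∫ t in D T ∩ B T, Z T t ^ (2 * κ) := by
    calc ∫ t in D T, Z T t ^ (2 * κ) * tent r ((Real.log (Z T t) - κ * l) / q)
        ≤ ∫ t in D T, (G.indicator (fun _ => Real.exp (2 * κ * (κ * l + 3 * r * q))) t +
          (B T).indicator (fun t => Z T t ^ (2 * κ)) t) := by
          refine setIntegral_mono_on ?_ (hb1.add hb2) (hD T) fun t ht => ?_
          · refine hI.mono' ?_ ?_
            · refine AEStronglyMeasurable.restrict ?_
              exact (((hZm T).pow_const _).mul ((tent r).continuous.measurable.comp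
                ((((hZm T).log).sub_const _).div_const _))).aestronglyMeasurable
            · refine Eventually.of_forall fun t => ?_
              rw [Real.norm_eq_abs, abs_of_nonneg (mul_nonneg (Real.rpow_nonneg (hZ0 T t) _)
                (tent_nonneg _ _))]
              exact mul_le_of_le_one_right (Real.rpow_nonneg (hZ0 T t) _) (tent_le _ _)
          · exact hpt t ht
      _ = (∫ t in D T, G.indicator (fun _ => Real.exp (2 * κ * (κ * l + 3 * r * q))) t) +
          ∫ t in D T, (B T).indicator (fun t => Z T t ^ (2 * κ)) t := integral_add hb1 hb2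
      _ = _ := by
          rw [setIntegral_indicator hGm, setIntegral_indicator (hB T), setIntegral_const]
          rw [show D T ∩ G = G from inter_eq_right.2 fun t ht => ht.1]
          simp only [Measure.real, smul_eq_mul]
          ring
  have hexp : 0 < Real.exp (-(κ ^ 2 * l)) / T := by positivity
  have h7 := mul_le_mul_of_nonneg_left h6 hexp.le
  rw [mul_add] at h7
  have h8 : a * p / 4 ≤ Real.exp (-(κ ^ 2 * l)) / T *
      (Real.exp (2 * κ * (κ * l + 3 * r * q)) * (volume G).toReal) := by linarith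
  have h9 : Real.exp (-(κ ^ 2 * l)) / T *
      (Real.exp (2 * κ * (κ * l + 3 * r * q)) * (volume G).toReal) =
      Real.exp (κ ^ 2 * l + 6 * κ * r * q) * ((volume G).toReal / T) := by
    rw [show κ ^ 2 * l + 6 * κ * r * q = -(κ ^ 2 * l) + 2 * κ * (κ * l + 3 * r * q) by ring,
      Real.exp_add]
    ring
  rw [h9] at h8
  have h10 : Real.exp (-(ε / 2 * Real.sqrt l)) ≤ a * p / 4 := by
    have h11 : Real.log (4 / (a * p)) ≤ ε / 2 * Real.sqrt l := by
      have := mul_le_mul_of_nonneg_left h5 (show 0 ≤ ε / 2 by positivity)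
      rw [← mul_assoc, show ε / 2 * (2 / ε) = 1 by field_simp, one_mul] at this
      exact this
    have h12 : 0 < 4 / (a * p) := by positivity
    rw [Real.exp_neg]
    rw [show a * p / 4 = (4 / (a * p))⁻¹ by field_simp]
    refine inv_anti₀ h12 ?_
    rw [← Real.exp_log h12]
    exact Real.exp_le_exp.2 h11
  have h13 : 6 * κ * r * q ≤ ε / 2 * Real.sqrt l := by
    have : 6 * κ * r = ε / 4 := by rw [hr]; field_simp; norm_num
    rw [this]
    have := Real.sqrt_nonneg l
    nlinarith
  have h14 : Real.exp (-(κ ^ 2 * l) - ε * Real.sqrt l) * Real.exp (κ ^ 2 * l + 6 * κ * r * q) ≤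
      Real.exp (-(ε / 2 * Real.sqrt l)) := by
    rw [← Real.exp_add, Real.exp_le_exp]
    linarith
  have h15 : Real.exp (-(κ ^ 2 * l) - ε * Real.sqrt l) * Real.exp (κ ^ 2 * l + 6 * κ * r * q) ≤
      Real.exp (κ ^ 2 * l + 6 * κ * r * q) * ((volume G).toReal / T) := h14.trans (h10.trans h8)
  rw [mul_comm (Real.exp (κ ^ 2 * l + 6 * κ * r * q))] at h15
  exact le_of_mul_le_mul_right h15 (Real.exp_pos _)

end Pool.Agent.V1178.LV
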