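import Pool.Agent.V1178.LV.Abs

set_option autoImplicit false

/-! The exceptional sets of small tilted mass. -/

namespace Pool.Agent.V1178.LV

open Filter MeasureTheory Topology Set ProbabilityTheory
open scoped NNReal ENNReal

/-- a continuous majorant of the indicator of `|y| > M` -/
noncomputable def cut (M : ℝ) : BoundedContinuousFunction ℝ ℝ :=
  BoundedContinuousFunction.ofNormedAddCommGroup (fun y => min 1 (max 0 (|y| - (M - 1)))) (by fun_prop) 1
    (fun y => by
      rw [Real.norm_eq_abs, abs_of_nonneg (le_min zero_le_one (le_max_left _ _))]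
      exact min_le_left _ _)

lemma cut_apply (M y : ℝ) : cut M y = min 1 (max 0 (|y| - (M - 1))) := rfl

lemma cut_nonneg (M y : ℝ) : 0 ≤ cut M y := le_min zero_le_one (le_max_left _ _)

lemma cut_le (M y : ℝ) : cut M y ≤ 1 := min_le_left _ _

lemma cut_one {M y : ℝ} (h : M < |y|) : cut M y = 1 := by
  rw [cut_apply]
  exact min_eq_left (le_max_of_le_right (by linarith))

lemma cut_sq {M : ℝ} (hM : 1 < M) (y : ℝ) : cut M y ≤ y ^ 2 / (M - 1) ^ 2 := by
  by_cases h : |y| ≤ M - 1
  · have : cut M y = 0 := by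
      rw [cut_apply, max_eq_left (by linarith), min_eq_right zero_le_one]
    rw [this]; positivity
  · push Not at h
    refine (cut_le M y).trans ?_
    rw [le_div_iff₀ (by have : 0 < M - 1 := by linarith
                        positivity), one_mul, ← sq_abs y]
    exact pow_le_pow_left₀ (by linarith) h.le 2

lemma gauss_sq (m : ℝ) (v : ℝ≥0) : ∫ y, y ^ 2 ∂(gaussianReal m v) = m ^ 2 + v := by
  have h1 := variance_eq_sub (memLp_id_gaussianReal (μ := m) (v := v) 2)
  rw [variance_id_gaussianReal] at h1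
  simp only [id_eq, Pi.pow_apply] at h1
  have h2 : ∫ x, x ∂(gaussianReal m v) = m := integral_id_gaussianReal
  rw [h2] at h1
  linarith

lemma gauss_tail (m : ℝ) (v : ℝ≥0) {M : ℝ} (hM : 1 < M) :
    ∫ y, cut M y ∂(gaussianReal m v) ≤ (m ^ 2 + v) / (M - 1) ^ 2 := by
  rw [← gauss_sq m v, ← integral_div]
  refine integral_mono ((cut M).integrable _) ?_ fun y => cut_sq hM y
  exact ((memLp_id_gaussianReal (μ := m) (v := v) 2).integrable_sq).div_const _

section

variable {β A0 : ℝ} {c : ℝ → ℝ} {Zs : ℝ → ℝ → ℝ → ℝ} {m : ℝ → ℝ} {v : ℝ → ℝ≥0}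

/-- one shift -/
lemma bad_one (hA0 : 0 < A0) (hc : ∀ᶠ T in atTop, 0 ≤ c T)
    (hZ0 : ∀ T a t, 0 ≤ Zs T a t) (hZm : ∀ T, Measurable fun p : ℝ × ℝ => Zs T p.1 p.2)
    (hint : ∀ᶠ T in atTop, IntegrableOn (fun t => Zs T 0 t ^ β) (Icc 0 T))
    (hlim : ∀ (a : ℝ) (F : BoundedContinuousFunction ℝ ℝ), Tendsto (fun T => c T *
      ∫ t in Icc 0 T, Zs T 0 t ^ β * F (Real.log (Zs T a t) - Real.log (Zs T 0 t))) atTop
      (𝓝 (A0 * ∫ y, F y ∂(gaussianReal (m a) (v a)))))
    (a : ℝ) {η : ℝ} (hη : 0 < η) :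
    ∃ M₀ : ℝ, ∀ M ≥ M₀, ∀ᶠ T in atTop, c T * ∫ t in Icc 0 T ∩
      {t | M < |Real.log (Zs T a t) - Real.log (Zs T 0 t)|}, Zs T 0 t ^ β ≤ η := by
  obtain ⟨C, hC⟩ : ∃ C, C = A0 * ((m a) ^ 2 + v a) := ⟨_, rfl⟩
  have hC0 : 0 ≤ C := by rw [hC]; positivity
  refine ⟨2 + Real.sqrt (2 * C / η), fun M hM => ?_⟩
  have hM1 : 1 < M := by have := Real.sqrt_nonneg (2 * C / η); linarith
  have hM2 : C / (M - 1) ^ 2 < η := by
    rw [div_lt_iff₀ (by have : 0 < M - 1 := by linarith
                        positivity)]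
    have h1 : Real.sqrt (2 * C / η) ≤ M - 2 := by linarith
    have h2 : 2 * C / η ≤ (M - 2) ^ 2 := by
      rw [← Real.sq_sqrt (show 0 ≤ 2 * C / η by positivity)]
      exact pow_le_pow_left₀ (Real.sqrt_nonneg _) h1 2
    rw [div_le_iff₀ hη] at h2
    have h3 : (M - 2) ^ 2 < (M - 1) ^ 2 := by
      have : 0 ≤ M - 2 := (Real.sqrt_nonneg _).trans h1
      nlinarith
    nlinarith
  have h1 := hlim a (cut M)
  have h2 : A0 * ∫ y, cut M y ∂(gaussianReal (m a) (v a)) < η := by
    refine lt_of_le_of_lt ?_ hM2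
    rw [hC, mul_div_assoc]
    exact mul_le_mul_of_nonneg_left (gauss_tail _ _ hM1) hA0.le
  filter_upwards [h1.eventually (eventually_le_nhds h2), hint, hc] with T h3 hI hc0
  refine le_trans (mul_le_mul_of_nonneg_left ?_ hc0) h3
  have hSm : MeasurableSet {t | M < |Real.log (Zs T a t) - Real.log (Zs T 0 t)|} := by
    have h4 : Measurable (fun t => Zs T a t) := (hZm T).comp measurable_prodMk_left
    have h5 : Measurable (fun t => Zs T 0 t) := (hZm T).comp measurable_prodMk_left
    refine measurableSet_lt measurable_const ?_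
    exact (h4.log.sub h5.log).abs
  rw [← setIntegral_indicator hSm]
  refine integral_mono (hI.indicator hSm) ?_ fun t => ?_
  · refine hI.mono' ?_ (Eventually.of_forall fun t => ?_)
    · have h4 : Measurable (fun t => Zs T a t) := (hZm T).comp measurable_prodMk_left
      have h5 : Measurable (fun t => Zs T 0 t) := (hZm T).comp measurable_prodMk_left
      exact ((h5.pow_const _).mul ((cut M).continuous.measurable.comp
        (h4.log.sub h5.log))).aestronglyMeasurable
    · rw [Real.norm_eq_abs, abs_of_nonneg (mul_nonneg (Real.rpow_nonneg (hZ0 T 0 t) _)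
        (cut_nonneg _ _))]
      exact mul_le_of_le_one_right (Real.rpow_nonneg (hZ0 T 0 t) _) (cut_le _ _)
  · by_cases ht : t ∈ {t | M < |Real.log (Zs T a t) - Real.log (Zs T 0 t)|}
    · rw [indicator_of_mem ht, cut_one ht, mul_one]
    · rw [indicator_of_notMem ht]
      exact mul_nonneg (Real.rpow_nonneg (hZ0 T 0 t) _) (cut_nonneg _ _)

/-- a window -/
lemma bad_window (hA0 : 0 < A0) (hc : ∀ᶠ T in atTop, 0 ≤ c T)
    (hZ0 : ∀ T a t, 0 ≤ Zs T a t) (hZm : ∀ T, Measurable fun p : ℝ × ℝ => Zs T p.1 p.2)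
    (hint : ∀ᶠ T in atTop, IntegrableOn (fun t => Zs T 0 t ^ β) (Icc 0 T))
    (hlim : ∀ (a : ℝ) (F : BoundedContinuousFunction ℝ ℝ), Tendsto (fun T => c T *
      ∫ t in Icc 0 T, Zs T 0 t ^ β * F (Real.log (Zs T a t) - Real.log (Zs T 0 t))) atTop
      (𝓝 (A0 * ∫ y, F y ∂(gaussianReal (m a) (v a)))))
    {A C : ℝ} (hA : 0 ≤ A) (hmv : ∀ x ∈ Icc (-A) A, (m x) ^ 2 + v x ≤ C)
    {η η' : ℝ} (hη : 0 < η) (hη' : 0 < η') :
    ∃ M₀ : ℝ, ∀ M ≥ M₀, ∀ᶠ T in atTop, c T * ∫ t in Icc 0 T ∩
      {t | ENNReal.ofReal η' < volume {x : ℝ | x ∈ Icc (-A) A ∧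
        M < |Real.log (Zs T x t) - Real.log (Zs T 0 t)|}}, Zs T 0 t ^ β ≤ η := by
  have hC0 : 0 ≤ C := le_trans (by positivity) (hmv 0 ⟨by linarith, hA⟩)
  obtain ⟨K, hK⟩ : ∃ K, K = A0 * C * (2 * A + 1) / η' := ⟨_, rfl⟩
  have hK0 : 0 ≤ K := by rw [hK]; positivity
  refine ⟨2 + Real.sqrt (2 * K / η), fun M hM => ?_⟩
  have hM1 : 1 < M := by have := Real.sqrt_nonneg (2 * K / η); linarith
  have hM10 : 0 < (M - 1) ^ 2 := by
    have : 0 < M - 1 := by linarith
    positivity
  have hM2 : K / (M - 1) ^ 2 < η := by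
    rw [div_lt_iff₀ hM10]
    have h1 : Real.sqrt (2 * K / η) ≤ M - 2 := by linarith
    have h2 : 2 * K / η ≤ (M - 2) ^ 2 := by
      rw [← Real.sq_sqrt (show 0 ≤ 2 * K / η by positivity)]
      exact pow_le_pow_left₀ (Real.sqrt_nonneg _) h1 2
    rw [div_le_iff₀ hη] at h2
    have h3 : (M - 2) ^ 2 < (M - 1) ^ 2 := by
      have : 0 ≤ M - 2 := (Real.sqrt_nonneg _).trans h1
      nlinarith
    nlinarith
  obtain ⟨H, hH⟩ : ∃ H : ℝ → ℝ → ℝ, ∀ T x, H T x = c T *
      ∫ t in Icc 0 T, Zs T 0 t ^ β * cut M (Real.log (Zs T x t) - Real.log (Zs T 0 t)) := ⟨_, fun _ _ => rfl⟩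
  have hmass := hlim 0 (BoundedContinuousFunction.const _ 1)
  simp only [BoundedContinuousFunction.const_apply, mul_one, integral_const, probReal_univ,
    smul_eq_mul] at hmass
  have hm2 : ∀ᶠ T in atTop, c T * ∫ t in Icc 0 T, Zs T 0 t ^ β ≤ 2 * A0 :=
    hmass.eventually (eventually_le_nhds (by linarith))
  -- measurability
  have hY : ∀ T, Measurable fun p : ℝ × ℝ => Real.log (Zs T p.1 p.2) - Real.log (Zs T 0 p.2) := by
    intro T
    refine (hZm T).log.sub ?_
    exact ((hZm T).comp (measurable_const.prodMk measurable_snd)).log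
  have hF : ∀ T, Measurable fun p : ℝ × ℝ => Zs T 0 p.2 ^ β *
      cut M (Real.log (Zs T p.1 p.2) - Real.log (Zs T 0 p.2)) := by
    intro T
    refine Measurable.mul ?_ ((cut M).continuous.measurable.comp (hY T))
    exact ((hZm T).comp (measurable_const.prodMk measurable_snd)).pow_const _
  -- dominated convergence
  have hdc : Tendsto (fun T => ∫ x in Icc (-A) A, H T x) atTop
      (𝓝 (∫ x in Icc (-A) A, A0 * ∫ y, cut M y ∂(gaussianReal (m x) (v x)))) := by
    refine tendsto_integral_filter_of_dominated_convergence (fun _ => 2 * A0) ?_ ?_ ?_ ?_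
    · refine Eventually.of_forall fun T => ?_
      rw [show H T = fun x => c T * ∫ t in Icc 0 T, Zs T 0 t ^ β *
        cut M (Real.log (Zs T x t) - Real.log (Zs T 0 t)) from funext (hH T)]
      exact ((hF T).stronglyMeasurable.integral_prod_right.const_mul _).aestronglyMeasurable
    · filter_upwards [hm2, hint, hc] with T h1 hI hc0
      refine Eventually.of_forall fun x => ?_
      rw [hH, Real.norm_eq_abs, abs_of_nonneg (mul_nonneg hc0 (integral_nonneg fun t =>
        mul_nonneg (Real.rpow_nonneg (hZ0 T 0 t) _) (cut_nonneg _ _)))]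
      refine le_trans (mul_le_mul_of_nonneg_left ?_ hc0) h1
      refine integral_mono_of_nonneg (Eventually.of_forall fun t =>
        mul_nonneg (Real.rpow_nonneg (hZ0 T 0 t) _) (cut_nonneg _ _)) hI
        (Eventually.of_forall fun t => mul_le_of_le_one_right (Real.rpow_nonneg (hZ0 T 0 t) _)
          (cut_le _ _))
    · exact integrable_const _
    · refine Eventually.of_forall fun x => ?_
      simp_rw [hH]
      exact hlim x (cut M)
  have hlimle : ∫ x in Icc (-A) A, A0 * ∫ y, cut M y ∂(gaussianReal (m x) (v x)) <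
      η * η' := by
    have h1 : ∫ x in Icc (-A) A, A0 * ∫ y, cut M y ∂(gaussianReal (m x) (v x)) ≤
        ∫ x in Icc (-A) A, A0 * (C / (M - 1) ^ 2) := by
      refine integral_mono_of_nonneg (Eventually.of_forall fun x => ?_) (integrable_const _) ?_
      · exact mul_nonneg hA0.le (integral_nonneg fun y => cut_nonneg _ _)
      · filter_upwards [ae_restrict_mem measurableSet_Icc] with x hx
        refine mul_le_mul_of_nonneg_left ?_ hA0.le
        refine (gauss_tail _ _ hM1).trans ?_
        exact div_le_div_of_nonneg_right (hmv x hx) hM10.le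
    rw [setIntegral_const, Measure.real, Real.volume_Icc, ENNReal.toReal_ofReal (by linarith),
      smul_eq_mul] at h1
    refine lt_of_le_of_lt h1 ?_
    rw [hK] at hM2
    have h2 : (A - -A) * (A0 * (C / (M - 1) ^ 2)) ≤
        A0 * C * (2 * A + 1) / η' / (M - 1) ^ 2 * η' := by
      have h3 : A0 * C * (2 * A + 1) / η' / (M - 1) ^ 2 * η' = (2 * A + 1) * (A0 * (C / (M - 1) ^ 2)) := by
        field_simp
      rw [h3]
      refine mul_le_mul_of_nonneg_right (by linarith) (by positivity)
    refine lt_of_le_of_lt h2 ?_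
    exact mul_lt_mul_of_pos_right hM2 hη'
  filter_upwards [hdc.eventually (eventually_le_nhds hlimle), hint, hc] with T h3 hI hc0
  set S : Set ℝ := {t | ENNReal.ofReal η' < volume {x : ℝ | x ∈ Icc (-A) A ∧
        M < |Real.log (Zs T x t) - Real.log (Zs T 0 t)|}} with hS
  have hRm : MeasurableSet {p : ℝ × ℝ | p.2 ∈ Icc (-A) A ∧
      M < |Real.log (Zs T p.2 p.1) - Real.log (Zs T 0 p.1)|} := by
    refine (measurable_snd measurableSet_Icc).inter ?_
    exact measurableSet_lt measurable_const ((hY T).comp measurable_swap).abs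
  have hSm : MeasurableSet S := by
    have h4 := measurable_measure_prodMk_left (ν := (volume : Measure ℝ)) hRm
    exact measurableSet_lt measurable_const h4
  have hprod : Integrable (fun p : ℝ × ℝ => Zs T 0 p.2 ^ β *
      cut M (Real.log (Zs T p.1 p.2) - Real.log (Zs T 0 p.2)))
      ((volume.restrict (Icc (-A) A)).prod (volume.restrict (Icc 0 T))) := by
    refine Integrable.mono' (Integrable.comp_snd hI (volume.restrict (Icc (-A) A)))
      (hF T).aestronglyMeasurable (Eventually.of_forall fun p => ?_)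
    rw [Real.norm_eq_abs, abs_of_nonneg (mul_nonneg (Real.rpow_nonneg (hZ0 T 0 p.2) _)
        (cut_nonneg _ _))]
    exact mul_le_of_le_one_right (Real.rpow_nonneg (hZ0 T 0 p.2) _) (cut_le _ _)
  have hsw : ∫ x in Icc (-A) A, ∫ t in Icc 0 T, Zs T 0 t ^ β *
      cut M (Real.log (Zs T x t) - Real.log (Zs T 0 t)) = ∫ t in Icc 0 T, ∫ x in Icc (-A) A,
      Zs T 0 t ^ β * cut M (Real.log (Zs T x t) - Real.log (Zs T 0 t)) :=
    integral_integral_swap hprod
  have h5 : η' * ∫ t in Icc 0 T ∩ S, Zs T 0 t ^ β ≤ ∫ t in Icc 0 T, ∫ x in Icc (-A) A,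
      Zs T 0 t ^ β * cut M (Real.log (Zs T x t) - Real.log (Zs T 0 t)) := by
    rw [← setIntegral_indicator hSm, ← integral_const_mul]
    refine integral_mono ((hI.indicator hSm).const_mul _) hprod.integral_prod_right fun t => ?_
    simp only
    by_cases ht : t ∈ S
    · rw [indicator_of_mem ht, integral_const_mul, mul_comm η']
      refine mul_le_mul_of_nonneg_left ?_ (Real.rpow_nonneg (hZ0 T 0 t) _)
      have hRt : MeasurableSet {x : ℝ | x ∈ Icc (-A) A ∧
          M < |Real.log (Zs T x t) - Real.log (Zs T 0 t)|} :=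
        hRm.preimage (measurable_prodMk_left (x := t))
      have hfin : volume {x : ℝ | x ∈ Icc (-A) A ∧
          M < |Real.log (Zs T x t) - Real.log (Zs T 0 t)|} ≠ ⊤ := by
        refine ne_top_of_le_ne_top ?_ (measure_mono (fun x hx => hx.1 : _ ⊆ Icc (-A) A))
        rw [Real.volume_Icc]; exact ENNReal.ofReal_ne_top
      calc η' ≤ (volume {x : ℝ | x ∈ Icc (-A) A ∧
          M < |Real.log (Zs T x t) - Real.log (Zs T 0 t)|}).toReal := by
            rw [← ENNReal.toReal_ofReal hη'.le]
            exact ENNReal.toReal_mono hfin (le_of_lt ht)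
        _ = ∫ x in Icc (-A) A, {x : ℝ | x ∈ Icc (-A) A ∧
          M < |Real.log (Zs T x t) - Real.log (Zs T 0 t)|}.indicator (fun _ => (1:ℝ)) x := by
            rw [setIntegral_indicator hRt, inter_eq_right.2 fun x hx => hx.1, setIntegral_const]
            simp [Measure.real]
        _ ≤ _ := by
            refine integral_mono ((integrable_const _).indicator hRt) ?_ fun x => ?_
            · refine Integrable.mono' (integrable_const (1:ℝ)) ?_ (Eventually.of_forall fun x => ?_)
              · exact ((cut M).continuous.measurable.comp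
                  ((hY T).comp (measurable_prodMk_right (y := t)))).aestronglyMeasurable
              · rw [Real.norm_eq_abs, abs_of_nonneg (cut_nonneg _ _)]
                exact cut_le _ _
            · by_cases hx : x ∈ {x : ℝ | x ∈ Icc (-A) A ∧
                M < |Real.log (Zs T x t) - Real.log (Zs T 0 t)|}
              · simp only
                rw [indicator_of_mem hx, cut_one hx.2]
              · simp only
                rw [indicator_of_notMem hx]
                exact cut_nonneg _ _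
    · rw [indicator_of_notMem ht, mul_zero]
      exact integral_nonneg fun x => mul_nonneg (Real.rpow_nonneg (hZ0 T 0 t) _) (cut_nonneg _ _)
  have h6 : ∫ x in Icc (-A) A, H T x = c T * ∫ x in Icc (-A) A, ∫ t in Icc 0 T, Zs T 0 t ^ β *
      cut M (Real.log (Zs T x t) - Real.log (Zs T 0 t)) := by
    simp_rw [hH]
    rw [integral_const_mul]
  rw [h6, hsw] at h3
  have h7 : η' * (c T * ∫ t in Icc 0 T ∩ S, Zs T 0 t ^ β) ≤ η * η' := by
    calc η' * (c T * ∫ t in Icc 0 T ∩ S, Zs T 0 t ^ β)
        = c T * (η' * ∫ t in Icc 0 T ∩ S, Zs T 0 t ^ β) := by ring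
      _ ≤ _ := (mul_le_mul_of_nonneg_left h5 hc0).trans h3
  rw [mul_comm η η'] at h7
  exact le_of_mul_le_mul_left h7 hη'

end

end Pool.Agent.V1178.LV
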